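import Pool.Agent.H95.DC.CovP
import Pool.Agent.H95.M.Q49_WU_Pair

/-!
# Families of properties of schemes with an index, and coverings of affine spaces
-/

set_option autoImplicit false

open CategoryTheory CategoryTheory.Limits AlgebraicGeometry MvPolynomial Pool.Agent.Y116.UV
  Pool.Agent.Z125.UN Pool.Agent.Q49.WU Pool.Agent.H95.DC

namespace Pool.Agent.H95.PR

/-- As `WUni`; moreover, `P N` passes to open and closed subschemes, and flat morphisms `V → S` with
affine spaces of dimension `r` as fibres shift the index by `r`. -/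
structure WFla {R : Type} [CommRing R] (sep : Prop) (P : ℤ → Sch R → Prop) : Prop
    extends WUni sep P where
  clopen : ∀ (N : ℤ) {Z X : Sch R} (i : Z ⟶ X), FT sep X → IsClosedImmersion i.left →
    IsOpenImmersion i.left → P N X → P N Z
  fibres : ∀ (N : ℤ) {V S : Sch R} (q : V ⟶ S) (r : ℕ), FT sep V → FT sep S → Flat q.left →
    AffineFibres q.left r → (P N S ↔ P (N + r) V)

variable {R : Type} [CommRing R] {sep : Prop} {P : ℤ → Sch R → Prop} {N : ℤ}

section

variable (hP : WUni sep P)

include hP

lemma w_iso {A B : Type} [CommRing A] [CommRing B] [Algebra R A] [Algebra R B]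
    [Algebra.FiniteType R A] (e : A ≃ₐ[R] B) (h : P N (aff R A)) : P N (aff R B) :=
  hP.iso N (ft_aff sep) ⟨(affIso e).symm⟩ h

lemma w_empty (B : Type) [CommRing B] [Algebra R B] (hB : Subsingleton B) : P N (aff R B) := by
  let A := MvPolynomial (Fin 0) R
  have h1 : P N (aff R A) := hP.space N 0
  have h2 : P N (aff R (Localization.Away (1 : A))) := by
    have e := IsLocalization.atUnits A (Submonoid.powers (1 : A)) (S := Localization.Away (1 : A))
      (by rintro _ ⟨n, rfl⟩; simp)
    exact w_iso hP (e.restrictScalars R) h1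
  have h3 : P N (aff R (A ⧸ Ideal.span {(1 : A)})) :=
    hP.closed N _ _ (ft_aff sep) (triple_away (1 : A)) h1 h2
  have h4 : Subsingleton (A ⧸ Ideal.span {(1 : A)}) :=
    Ideal.Quotient.subsingleton_iff.mpr Ideal.span_singleton_one
  let e : (A ⧸ Ideal.span {(1 : A)}) ≃ₐ[R] B :=
    AlgEquiv.ofRingEquiv (f := { toFun := fun _ => 0
                                 invFun := fun _ => 0
                                 left_inv := fun _ => Subsingleton.elim _ _
                                 right_inv := fun _ => Subsingleton.elim _ _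
                                 map_mul' := fun _ _ => Subsingleton.elim _ _
                                 map_add' := fun _ _ => Subsingleton.elim _ _ })
      (fun _ => Subsingleton.elim _ _)
  exact w_iso hP e h3

/-- Polynomial rings shift the index. -/
lemma w_poly (A : Type) [CommRing A] [Algebra R A] [Algebra.FiniteType R A] (n : ℕ) :
    P N (aff R A) ↔ P (N + n) (aff R (MvPolynomial (Fin n) A)) := by
  have h1 : IsOpenImmersion (𝟙 (aff R A) : aff R A ⟶ aff R A).left :=
    inferInstanceAs (IsOpenImmersion (𝟙 (aff R A).left))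
  have h2 : Set.range (𝟙 (aff R A) : aff R A ⟶ aff R A).left =
      {x : PrimeSpectrum A | ∃ l, f1 A n l ∉ x.asIdeal} := by
    have h1 : Set.range (𝟙 (aff R A) : aff R A ⟶ aff R A).left = Set.univ := Set.range_id
    have h2 : {x : PrimeSpectrum A | ∃ l, f1 A n l ∉ x.asIdeal} = Set.univ := by
      rw [Set.eq_univ_iff_forall]
      intro x
      exact ⟨0, fun h => x.isPrime.ne_top ((Ideal.eq_top_iff_one _).mpr h)⟩
    exact h1.trans h2.symm
  have h3 := hP.jouanolou N A (n + 1) (f1 A n) (aff R A) (𝟙 _) h1 h2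
  have h4 : N + (((n + 1 : ℕ) : ℤ) - 1) = N + n := by push_cast; ring
  rw [h4] at h3
  have : Algebra.FiniteType R (Jou (f1 A n)) :=
    Algebra.FiniteType.trans (S := A) inferInstance inferInstance
  have : Algebra.FiniteType R (MvPolynomial (Fin n) A) :=
    Algebra.FiniteType.trans (S := A) inferInstance inferInstance
  rw [← h3]
  exact ⟨w_iso hP ((jouOne A n).restrictScalars R), w_iso hP ((jouOne A n).restrictScalars R).symm⟩

end

section fla

variable (hP : WFla sep P)

include hP

lemma w_prod (C D : Type) [CommRing C] [CommRing D] [Algebra R C] [Algebra R D]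
    [Algebra.FiniteType R C] [Algebra.FiniteType R D] :
    P N (aff R (C × D)) ↔ P N (aff R C) ∧ P N (aff R D) := by
  have : Algebra.FiniteType R (C × D) := inferInstance
  constructor
  · intro h
    exact ⟨hP.clopen N _ (ft_aff sep) (closed_affMap _ Prod.fst_surjective) (open_fst C D) h,
      hP.clopen N _ (ft_aff sep) (closed_affMap _ Prod.snd_surjective) (open_snd C D) h⟩
  · rintro ⟨h1, h2⟩
    exact hP.total N _ _ (ft_aff sep) (triple_prod C D) h1 h2

lemma w_roots (D : Type) [CommRing D] [Algebra R D] [Algebra.FiniteType R D]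
    (T : Finset R) (hD : UnitDiff T) (hT : T.Nonempty) :
    P N (aff R (AdjoinRoot (sp D T))) ↔ P N (aff R D) := by
  have h1 : ∀ (T : Finset R) (c : R) (hc : c ∉ T), UnitDiff (Finset.cons c T hc) →
      (P N (aff R (AdjoinRoot (sp D (Finset.cons c T hc)))) ↔
        P N (aff R D) ∧ P N (aff R (AdjoinRoot (sp D T)))) := by
    intro T c hc hu
    rw [← w_prod hP]
    exact ⟨w_iso hP.toWUni (crtA D T c hc hu), w_iso hP.toWUni (crtA D T c hc hu).symm⟩
  have h2 : ∀ T : Finset R, UnitDiff T → P N (aff R D) → P N (aff R (AdjoinRoot (sp D T))) := by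
    intro T hu h
    induction T using Finset.cons_induction with
    | empty =>
      apply w_empty hP.toWUni
      have : sp D (∅ : Finset R) = 1 := Finset.prod_empty
      rw [this]
      exact Ideal.Quotient.subsingleton_iff.mpr Ideal.span_singleton_one
    | cons c T hc ih => exact (h1 T c hc hu).mpr ⟨h, ih hu.of_cons⟩
  constructor
  · obtain ⟨T', c, hc, rfl⟩ := hT.exists_cons_eq
    intro h
    exact ((h1 T' c hc hD).mp h).1
  · exact h2 T hD

variable {A : Type} [CommRing A] [Algebra R A] [Algebra.FiniteType R A] [IsNoetherianRing R]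
  {m : ℕ} (f : Fin m → A)

lemma w_open (S' : Finset R) (c₀ : R) (hc : c₀ ∉ S') (hu : UnitDiff (Finset.cons c₀ S' hc))
    (hA : P N (aff R A)) :
    P (N + m) (opn (aff R (Cov (Finset.cons c₀ S' hc) f)) (opU S' c₀ hc f)) := by
  let B := Cov (Finset.cons c₀ S' hc) f
  have hN : IsNoetherianRing B := Algebra.FiniteType.isNoetherianRing R B
  have hft : FT sep (opn (aff R B) (opU S' c₀ hc f)) := by
    apply ft_opn (ft_aff sep)
    exact TopologicalSpace.NoetherianSpace.isCompact (α := PrimeSpectrum B) _
  let q : opn (aff R B) (opU S' c₀ hc f) ⟶ aff R A :=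
    opnMap _ _ ≫ affMap (IsScalarTower.toAlgHom R A B)
  have hflat : Module.Flat A B := flat_cov f _ (Finset.cons_nonempty hc)
  have hq1 : Flat (Spec.map (CommRingCat.ofHom (algebraMap A B))) := by
    rw [Flat.SpecMap_iff]
    exact RingHom.flat_algebraMap_iff.mpr hflat
  let U : (Spec (CommRingCat.of B)).Opens := opU S' c₀ hc f
  have hq : Flat q.left :=
    inferInstanceAs (Flat (U.ι ≫ Spec.map (CommRingCat.ofHom (algebraMap A B))))
  refine (hP.fibres N q m hft (ft_aff sep) hq ?_).mp hA
  refine cov_fibres S' c₀ hc f hu (opU S' c₀ hc f) fun x => ?_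
  change x ∈ (Set.range (affMap (thetaK S' c₀ hc f)).left)ᶜ ↔ _
  rw [range_affMap _ (thetaK_surj S' c₀ hc f)]
  exact not_congr (theta_range S' _ (Finset.subset_cons hc) f x)

/-- **The covering and the zero scheme.** -/
theorem w_cov_iff (hA : P N (aff R A)) (S : Finset R) (hu : UnitDiff S) (hS : 2 ≤ S.card) :
    P (N + m) (aff R (Cov S f)) ↔ P N (aff R (A ⧸ Ideal.span (Set.range f))) := by
  have hne : S.Nonempty := Finset.card_pos.mp (by omega)
  obtain ⟨S', c₀, hc, rfl⟩ := hne.exists_cons_eq
  rw [Finset.card_cons] at hS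
  have hS' : S'.Nonempty := Finset.card_pos.mp (by omega)
  have hU := w_open hP f S' c₀ hc hu hA
  have h1 : P (N + m) (aff R (Cov (Finset.cons c₀ S' hc) f)) ↔ P (N + m) (aff R (WW S' f)) :=
    ⟨fun h => hP.closed _ _ _ (ft_aff sep) (triple_cov S' c₀ hc f) h hU,
      fun h => hP.total _ _ _ (ft_aff sep) (triple_cov S' c₀ hc f) h hU⟩
  have h2 : P (N + m) (aff R (WW S' f)) ↔ P (N + m) (aff R (DD f)) :=
    w_roots hP (DD f) S' hu.of_cons hS'
  rw [h1, h2]
  exact (w_poly hP.toWUni _ m).symm

omit [IsNoetherianRing R] in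
lemma w_space (σ : Type) [Fintype σ] : P N (aff R (MvPolynomial σ R)) :=
  w_iso hP.toWUni (renameEquiv R (Fintype.equivFin σ).symm) (hP.space N _)

omit [Algebra.FiniteType R A] in
theorem w_covS_iff {σ : Type} [Fintype σ] (S : Finset R) (hu : UnitDiff S) (hS : 2 ≤ S.card)
    {m : ℕ} (f : Fin m → MvPolynomial σ R) : P (N + m) (covS S f) ↔ P N (zeroS f) :=
  w_cov_iff hP f (w_space hP σ) S hu hS

/-- **All schemes, and coverings given by trilinear forms.** -/
theorem w_all_iff (S : Finset R) (hu : UnitDiff S) (hS : 2 ≤ S.card) :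
    (∀ X : Sch R, FT sep X → P N X) ↔
      ∀ (a b c : ℕ) (t : Fin a → Fin b → Fin c → R), P (N + c) (covS S (bq t)) := by
  constructor
  · intro h a b c t
    exact (w_covS_iff hP S hu hS (bq t)).mpr (h _ (ft_aff sep))
  · intro h
    rw [Pool.Agent.Q49.WU.all_iff hP.toWUni]
    intro a b c T
    have h1 : P N (zeroS (bq fun j k i => T i j k)) :=
      (w_covS_iff hP S hu hS (bq fun j k i => T i j k)).mp (h b c a _)
    exact Pool.Agent.Q49.WU.iso_alg hP.toWUni (hypEquiv T).symm
      (to_jou hP.toWUni (fun i => bil (Fin b) (Fin c) (T i)) (w_space hP _) h1)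

end fla

end Pool.Agent.H95.PR
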