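import Pool.Agent.H95.PR.Defs
import Pool.Agent.H95.PR.W
import Pool.Agent.H95.M.Q68_OV_One
import Pool.Agent.H95.WC.Main

/-!
# Cycle class maps and coverings of affine spaces
-/

set_option autoImplicit false
set_option linter.unusedSectionVars false

open CategoryTheory CategoryTheory.Limits AlgebraicGeometry MvPolynomial Pool.Agent.Y116.UV
  Pool.Agent.Z125.UN Pool.Agent.Q193.LT Pool.Agent.Q49.WU Pool.Agent.Q68.OV Pool.Agent.W5h68.SP
  Pool.Agent.H95.DC Pool.Agent.H95.WC

universe w w' u

namespace Pool.Agent.H95.PR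

section closure

variable {k : Type} [Field k] {E : Type w'} [CommRing E] {C : PairData.{w} k (ℤ × ℤ) E}
  (hC : IsFlatPair C) (h1 : BijAll C (aff k k))

include hC h1

/-- The closure properties of the schemes for which all maps are bijective. -/
theorem covC_pair : CovC (BijAll C) := by
  have hF : Fla True (BijAll C) :=
    { toBnd := bnd_pair hC.pair h1
      clopen := fun i hX hc ho h j => (hC.clopen i hX hc ho j).bij (h j)
      fibres := fun q r hV hX hq hr => by
        constructor
        · intro h j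
          exact (hC.fibres q r hV hX hq hr j).iff.mpr (h _)
        · intro h j
          obtain ⟨j, rfl⟩ := ((shiftN : Equiv.Perm (ℤ × ℤ)) ^ (-r : ℤ)).surjective j
          exact (hC.fibres q r hV hX hq hr j).iff.mp (h j) }
  exact
    { toCovPN := covPN_of_covP (covP_of_fla hF)
      cyclic := fun A _ _ _ d u hd hu h j => (hC.cyclic A d u hd hu j).bij (h j) }

/-- The same with one index. -/
theorem wfla_pair : WFla True (BijAt C Prod.fst) where
  toWUni := wuni_pair hC.pair graded_weight h1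
  clopen N _ _ i hX hc ho h j hj := (hC.clopen i hX hc ho j).bij (h j hj)
  fibres N V S q r hV hX hq hr := by
    constructor
    · intro h j hj
      refine (hC.fibres q r hV hX hq hr j).iff.mpr (h _ ?_)
      rw [graded_weight.pow]
      omega
    · intro h j hj
      obtain ⟨j, rfl⟩ := ((shiftN : Equiv.Perm (ℤ × ℤ)) ^ (-r : ℤ)).surjective j
      refine (hC.fibres q r hV hX hq hr j).iff.mp (h j ?_)
      rw [graded_weight.pow] at hj
      omega

end closure

section lists

variable {F : Type} [Field F]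

/-- Every property with the closure properties `Bnd` which is true for the zero schemes of a finite list of
families of at most `m` bilinear forms is true for `X`. -/
def ReachedC (m : ℕ) (X : Sch F) : Prop :=
  ∃ L : List (Form F), (∀ t ∈ L, t.c ≤ m) ∧
    ∀ Q : Sch F → Prop, Bnd True Q → (∀ t ∈ L, Q (zeroS (bq t.T))) → Q X

theorem bnd_reachedC (m : ℕ) : Bnd True (ReachedC m : Sch F → Prop) := by
  have two : ∀ {X Y Z : Sch F}, (∀ Q : Sch F → Prop, Bnd True Q → Q X → Q Y → Q Z) →
      ReachedC m X → ReachedC m Y → ReachedC m Z := by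
    rintro X Y Z h ⟨L, hL, h1⟩ ⟨L', hL', h2⟩
    refine ⟨L ++ L', fun t ht => (List.mem_append.mp ht).elim (hL t) (hL' t), fun Q hQ h3 => ?_⟩
    exact h Q hQ (h1 Q hQ fun t ht => h3 t (List.mem_append_left _ ht))
      (h2 Q hQ fun t ht => h3 t (List.mem_append_right _ ht))
  have one : ∀ {X Y : Sch F}, (∀ Q : Sch F → Prop, Bnd True Q → Q X → Q Y) →
      ReachedC m X → ReachedC m Y := by
    rintro X Y h ⟨L, hL, h1⟩
    exact ⟨L, hL, fun Q hQ h3 => h Q hQ (h1 Q hQ h3)⟩
  exact
  { iso := fun hX e => one fun Q hQ => hQ.iso hX e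
    total := fun i j hX ht => two fun Q hQ => hQ.total i j hX ht
    opened := fun i j hX ht => two fun Q hQ => hQ.opened i j hX ht
    closed := fun i j hX ht => two fun Q hQ => hQ.closed i j hX ht
    space := fun n => ⟨[], by simp, fun Q hQ _ => hQ.space n⟩
    jouanolou := fun B _ _ _ l f U j hj hr h =>
      one (X := aff F (Jou f)) (Y := U) (fun Q hQ h1 => hQ.jouanolou B l f U j hj hr h1) h
    torus := fun B _ _ _ h => one (X := aff F (LaurentPolynomial B)) (Y := aff F B)
      (fun Q hQ h1 => hQ.torus B h1) h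
    bundle := fun B _ _ _ l f U j hj hr h =>
      one (X := U) (Y := aff F (Jou f)) (fun Q hQ h1 => hQ.bundle B l f U j hj hr h1) h }

/-- **Finitely many forms.** -/
theorem reachedC [PerfectField F] {n : ℕ} (X : Sch F) (hX : FT True X)
    (hd : topologicalKrullDim X.left ≤ n) : ReachedC (n + 2) X := by
  refine (Pool.Agent.N882.UE.dim_bil (bnd_reachedC (n + 2)) n).mpr (fun a b c T h => ?_) X hX hd
  refine ⟨[⟨a, b, c, T⟩], ?_, fun Q _ h1 => h1 ⟨a, b, c, T⟩ (List.mem_singleton.mpr rfl)⟩
  intro t ht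
  rw [List.mem_singleton] at ht
  subst ht
  exact h

/-- **Finitely many forms, with one index.** -/
theorem reachedAtC (N : ℤ) (X : Sch F) (hX : FT True X) :
    ∃ L : List (Form F), ∀ Q : ℤ → Sch F → Prop, WFla True Q → ∀ S : Finset F, 2 ≤ S.card →
      (∀ t ∈ L, Q (N + t.c) (cov S t)) → Q N X := by
  obtain ⟨L, hL⟩ := reachedAt N X hX
  refine ⟨L.map fun t => ⟨t.b, t.c, t.a, fun j k i => t.T i j k⟩, fun Q hQ S hS h => ?_⟩
  refine hL Q hQ.toWUni fun t ht => ?_
  have h1 : Q N (zeroS (bq fun j k i => t.T i j k)) :=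
    (w_covS_iff hQ S (unitDiff_field S) hS (bq fun j k i => t.T i j k)).mp
      (h ⟨t.b, t.c, t.a, fun j k i => t.T i j k⟩ (List.mem_map_of_mem ht))
  exact Pool.Agent.Q49.WU.iso_alg hQ.toWUni (hypEquiv t.T).symm
    (to_jou hQ.toWUni (fun i => bil (Fin t.b) (Fin t.c) (t.T i)) (w_space hQ _) h1)

end lists

section main

variable {F : Type} [Field F] [PerfectField F]

/-- hypergraphs -/
lemma covG_iff {P : Sch F → Prop} (hP : CovP True (fun S : Finset F => 2 ≤ S.card) P)
    {S : Finset F} (hS : 2 ≤ S.card) (g : Graph) : P (covG S g) ↔ P (g.hyp F) := by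
  classical
  let t : Fin g.a → Fin g.b → Fin g.c → F := fun i j l => if (i, j, l) ∈ g.H then 1 else 0
  have h2 : (bf F fun l => Finset.univ.filter fun e : Fin g.a × Fin g.b => (e.1, e.2, l) ∈ g.H) =
      bq t := by
    funext l
    rw [bf, bq, Finset.sum_filter, Fintype.sum_prod_type]
    refine Finset.sum_congr rfl fun i _ => Finset.sum_congr rfl fun j _ => ?_
    change (if (i, j, l) ∈ g.H then _ else _) =
      C (if (i, j, l) ∈ g.H then (1 : F) else 0) * _ * _
    split_ifs
    · rw [C_1, one_mul]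
    · rw [C_0, zero_mul, zero_mul]
  rw [covG, h2, covS_iff hP S (unitDiff_field S) hS (bq t)]
  have h4 := tri_ind (R := F) g.H
  have h5 : g.hyp F = hypS t := by
    unfold Graph.hyp tripS Trip hypS
    rw [← h4]
  rw [h5]
  exact Pool.Agent.N882.UE.bil_iff hP.toBnd t

/-- **The classes of one smooth projective scheme, and finitely many coverings.** -/
theorem reach_cov {S : Sch F} (hS : SmoothProj S) {n : ℕ}
    (hn : topologicalKrullDim S.left ≤ n) (n1 : ℕ) (m0 : ℤ) :
    ∃ (L L' : List (Form F)) (G : List Graph),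
      (∀ t ∈ L, n1 + 2 < t.c ∧ t.c ≤ n + 2) ∧
      ∀ (E : Type w') [CommRing E] (D : Reach.{w, w', u} F E S m0)
        (C : PairData.{w} F (ℤ × ℤ) E), IsReach D → IsFlatPair C → WeightGen C →
        (∀ Y, SmoothProj Y → ∀ m, (BijAt C Prod.fst m Y ↔ Closed D m Y)) →
        (∀ Y : Sch F, SmoothProj Y → topologicalKrullDim Y.left ≤ n1 → BijAll C Y) →
        (∀ T : Finset F, 2 ≤ T.card →
          (Holds D ↔ ∀ t ∈ L, BijAll C (cov T t)) ∧
          (Holds D ↔ ∀ t ∈ L', BijAt C Prod.fst (m0 + t.c) (cov T t)) ∧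
          (Frac F → (Holds D ↔ ∀ g ∈ G, BijAll C (covG T g)))) ∧
        (Holds D ↔ ∀ X : Sch F, CBuilt n X → BijAll C X) ∧
        (Holds D → ∀ X : Sch F, FT True X → BijAll C X) ∧
        (∀ X : Sch F, CBuilt n1 X → BijAll C X) := by
  classical
  obtain ⟨L, hL, hLS⟩ := reachedC S hS.ft hn
  obtain ⟨L', hLS'⟩ := reachedAtC m0 S hS.ft
  have hGr : ∃ G : List Graph, Frac F →
      ∀ Q : Sch F → Prop, Bnd True Q → (∀ g ∈ G, Q (g.hyp F)) → Q S := by
    by_cases hF : Frac F
    · obtain ⟨G, hG⟩ := reachedG hF S hS.ft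
      exact ⟨G, fun _ => hG⟩
    · exact ⟨[], fun h => absurd h hF⟩
  obtain ⟨G, hGS⟩ := hGr
  refine ⟨L.filter (fun t => ¬ t.c ≤ n1 + 2), L', G, fun t ht => ?_, ?_⟩
  · rw [List.mem_filter] at ht
    exact ⟨by simpa using ht.2, hL t ht.1⟩
  intro E _ D C hD hC hg bij low
  have point : BijAll C (aff F F) := by
    refine hg n1 low (aff F F) (ft_aff True) ?_
    rw [topDim_aff, ringKrullDim_eq_zero_of_field]
    exact_mod_cast Nat.zero_le n1
  have hCC := covC_pair hC point
  have hcov := covP_of_covPN hCC.toCovPN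
  have hB := hCC.toBnd
  have hlow : ∀ X : Sch F, CBuilt n1 X → BijAll C X := of_cbuilt hCC (hg n1 low)
  have hall' : ∀ X : Sch F, BijAll C X ↔ ∀ m, BijAt C Prod.fst m X :=
    fun X => ⟨fun h _ j _ => h j, fun h j => h j.1 j rfl⟩
  have hst' : Holds D → ∀ Y, SmoothProj Y → BijAll C Y := fun h Y hY =>
    (hall' Y).mpr fun m => (bij Y hY m).mpr fun c x hx => hD.act_mem m Y hY c x (h x hx)
  have hback : BijAt C Prod.fst m0 S → Holds D := by
    intro h x hx
    have h1 := (bij S hS m0).mp h D.one x hx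
    rwa [hD.act_one] at h1
  have hall : Holds D → ∀ X : Sch F, FT True X → BijAll C X := fun h X hX =>
    (all_iff hB).mpr (fun a b c T => (wg_all hg hC.pair point).mp (hst' h) a b c T) X hX
  refine ⟨fun T hT => ⟨⟨fun h t _ => hall h _ (ft_aff True), fun h => ?_⟩,
    ⟨fun h t _ j _ => hall h _ (ft_aff True) j, fun h => ?_⟩,
    fun hF => ⟨fun h g _ => hall h _ (ft_aff True), fun h => ?_⟩⟩,
    ⟨fun h => of_cbuilt hCC fun X hX _ => hall h X hX, fun h => ?_⟩, hall, hlow⟩
  · refine hback ((hall' S).mp (hLS _ hB fun t ht => ?_) m0)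
    by_cases h4 : t.c ≤ n1 + 2
    · refine hlow _ ?_
      exact (Pool.Agent.N882.UE.dim_bil (covC_built (k := F) n1).toBnd n1).mp
        (fun X => .dim X) t.a t.b t.c t.T h4
    · exact (covS_iff hcov T (unitDiff_field T) hT (bq t.T)).mp
        (h t (List.mem_filter.mpr ⟨ht, by simpa using h4⟩))
  · exact hback (hLS' _ (wfla_pair hC point) T hT h)
  · exact hback ((hall' S).mp (hGS hF _ hB fun g hg' => (covG_iff hcov hT g).mp (h g hg')) m0)
  · exact hback ((hall' S).mp (h S (.dim S hS.ft hn)) m0)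

end main

end Pool.Agent.H95.PR
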