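import Pool.Agent.H95.M.Q49_WU_Pair
import Pool.Agent.H95.M.Q68_OV_Graphs
import Pool.Agent.H95.WC.Defs

/-!
# Cycle class maps and coverings of affine spaces: definitions
-/

set_option autoImplicit false

open CategoryTheory CategoryTheory.Limits AlgebraicGeometry Pool.Agent.Y116.UV Pool.Agent.Q193.LT
  Pool.Agent.Q49.WU Pool.Agent.Q68.OV Pool.Agent.W5h68.SP Pool.Agent.H95.DC Pool.Agent.H95.WC

universe w w'

namespace Pool.Agent.H95.PR

/-- What is used about the groups `A^{n,i}(X)`, `B^{n,i}(X)` of the weight complexes with compact supports,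
with coefficients in a `ℚ`-algebra `E`, and about the maps between them, besides `IsWeightPair`: the map
for an open and closed subscheme of `X` is a direct factor of the map for `X`; if `q : V ⟶ S` is flat and
all its fibres are affine spaces of dimension `r`, then `A^{n,i}(V) = A^{n-r,i}(S)`, and the same for `B`
(flat pull-back and localization); and for the coverings `s ^ d = u` of `Spec A`, `u` a unit, the map for
`Spec A` is a direct factor of the map for the covering. -/
structure IsFlatPair {k : Type} [Field k] {E : Type w'} [CommRing E]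
    (C : PairData.{w} k (ℤ × ℤ) E) : Prop where
  pair : IsWeightPair C
  clopen : ∀ {Z X : Sch k} (i : Z ⟶ X), FT True X → IsClosedImmersion i.left →
    IsOpenImmersion i.left → ∀ j, FactorAt C j Z j X
  fibres : ∀ {V S : Sch k} (q : V ⟶ S) (r : ℕ), FT True V → FT True S → Flat q.left →
    AffineFibres q.left r → ∀ j, SameAt C j V (((shiftN : Equiv.Perm (ℤ × ℤ)) ^ (-r : ℤ)) j) S
  cyclic : ∀ (A : Type) [CommRing A] [Algebra k A] [Algebra.FiniteType k A] (d : ℕ) (u : A), 0 < d →
    IsUnit u → ∀ j, FactorAt C j (aff k A) j (aff k (Cyc A d u))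

/-- The covering `∏_{c ∈ S} (w - c) = t(x, y, z)` of the affine space given by the trilinear form `t`. -/
noncomputable def cov {F : Type} [Field F] (S : Finset F) (t : Form F) : Sch F := covS S (bq t.T)

/-- The covering `∏_{c ∈ S} (w - c) = ∑_{(i, j, l) ∈ H} x_i y_j z_l` of the affine space given by the
tripartite hypergraph `H`. -/
noncomputable def covG {F : Type} [Field F] (S : Finset F) (g : Graph) : Sch F :=
  covS S (bf F fun l => Finset.univ.filter fun e : Fin g.a × Fin g.b => (e.1, e.2, l) ∈ g.H)

end Pool.Agent.H95.PR
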